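import Pool.Agent.H910R3.KS.Stmts
import Pool.Agent.H622R2.CoNP

/-! `SAT` minus a set in `P` is in `NP`. -/

set_option autoImplicit false

namespace Pool.Agent.H910R3.KS.B

open Pool.Agent.NPC Pool.Agent.H910R3.KS

theorem taskB : TaskNPSat → TaskB := by
  rintro ⟨V, p, hV, hL⟩ S ⟨Sd, hSd, hS⟩
  have hV' : NPC.Poly V := H622R2.poly_of_polyTime hV
  have hSd' : NPC.Poly Sd := H622R2.poly_of_polyTime hSd
  have hg : NPC.Poly (fun y : List Bool => if Sd (unpair y).1 = [true] then false
      else decide (V y = [true])) :=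
    NPC.Poly.ite (NPC.Poly.decide_eq (hSd'.comp (NPC.Poly.fst poly_unpair))
      (NPC.Poly.const [true])) (NPC.Poly.const false)
      (NPC.Poly.decide_eq hV' (NPC.Poly.const [true]))
  refine ⟨_, p, polyTime_of_poly hg, fun x => ?_⟩
  rw [Set.mem_inter_iff, Set.mem_compl_iff, hL x, hS x]
  simp only [unpair_pairBits]
  by_cases h : Sd x = [true]
  · simp [h]
  · simp [h]

end Pool.Agent.H910R3.KS.B
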