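import Pool.Agent.NPC.Classes
import Pool.Agent.NPC.Sat

/-!
# Universal machines and generalized Kolmogorov complexity
-/

set_option autoImplicit false

namespace Pool.Agent.H910R3.KS

open Pool.Agent.NPC Turing

/-- The Turing machine `M` (Mathlib's machines, input and output are bit strings) started with
input `x` halts with output `y` after at most `t` steps. -/
def Outputs (M : TM2ComputableAux Bool Bool) (x y : List Bool) (t : ℕ) : Prop :=
  Nonempty (TM2OutputsInTime M.tm (x.map M.inputAlphabet.invFun)
    (some (y.map M.outputAlphabet.invFun)) t)

/-- `U` is a universal machine: for every machine `M` there is a string `π` (the code of `M`) such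
that `U` on input `π x` simulates `M` on input `x`, with a polynomial loss of time. -/
def Universal (U : TM2ComputableAux Bool Bool) : Prop :=
  ∀ M : TM2ComputableAux Bool Bool, ∃ (π : List Bool) (p : Polynomial ℕ),
    ∀ (x y : List Bool) (t : ℕ), Outputs M x y t → Outputs U (π ++ x) y (p.eval (x.length + t))

/-- The generalized Kolmogorov class `K[g(n), G(n)]` (for the machine `U`): the strings `x` that `U`
outputs within fewer than `G(|x|)` steps on some input of length at most `g(|x|)`. -/
def KC (U : TM2ComputableAux Bool Bool) (g G : ℕ → ℕ) : Set (List Bool) :=
  {x | ∃ y : List Bool, y.length ≤ g x.length ∧ ∃ t < G x.length, Outputs U y x t}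

end Pool.Agent.H910R3.KS
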