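import Pool.Agent.H910R3.KS.Stmts

/-! helper826: task Expand of project H910-KS. -/

set_option autoImplicit false

namespace Pool.Agent.H910R3.KS.Expand

open Pool.Agent.NPC Turing
open Function (update)

/-- a state with at most six nonempty stacks -/
def S (a b c d e f : List Bool) : ℕ → List Bool
  | 0 => a
  | 1 => b
  | 2 => c
  | 3 => d
  | 4 => e
  | 5 => f
  | _ => []

/-- `k` in unary -/
def tal (k : ℕ) : List Bool := List.replicate k true

lemma tal_zero : tal 0 = [] := rfl

lemma tal_succ (k : ℕ) : tal (k + 1) = true :: tal k := rfl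

lemma tal_ne (k : ℕ) : tal (k + 1) ≠ [] := by simp [tal]

lemma upd0 (a b c d e f x : List Bool) : update (S a b c d e f) 0 x = S x b c d e f := by
  funext i
  rcases i with _ | _ | _ | _ | _ | _ | i <;> simp [Function.update_apply, S]

lemma upd1 (a b c d e f x : List Bool) : update (S a b c d e f) 1 x = S a x c d e f := by
  funext i
  rcases i with _ | _ | _ | _ | _ | _ | i <;> simp [Function.update_apply, S]

lemma upd2 (a b c d e f x : List Bool) : update (S a b c d e f) 2 x = S a b x d e f := by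
  funext i
  rcases i with _ | _ | _ | _ | _ | _ | i <;> simp [Function.update_apply, S]

lemma upd3 (a b c d e f x : List Bool) : update (S a b c d e f) 3 x = S a b c x e f := by
  funext i
  rcases i with _ | _ | _ | _ | _ | _ | i <;> simp [Function.update_apply, S]

lemma upd4 (a b c d e f x : List Bool) : update (S a b c d e f) 4 x = S a b c d x f := by
  funext i
  rcases i with _ | _ | _ | _ | _ | _ | i <;> simp [Function.update_apply, S]

lemma upd5 (a b c d e f x : List Bool) : update (S a b c d e f) 5 x = S a b c d e x := by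
  funext i
  rcases i with _ | _ | _ | _ | _ | _ | i <;> simp [Function.update_apply, S]

section
variable (a b c d e f : List Bool)

lemma pop0 : Runs (Cmd.pop 0) (S a b c d e f) (S a.tail b c d e f) 1 :=
  (Runs.pop (S a b c d e f) 0).conv rfl (by rw [upd0]; rfl) le_rfl

lemma pop1 : Runs (Cmd.pop 1) (S a b c d e f) (S a b.tail c d e f) 1 :=
  (Runs.pop (S a b c d e f) 1).conv rfl (by rw [upd1]; rfl) le_rfl

lemma pop2 : Runs (Cmd.pop 2) (S a b c d e f) (S a b c.tail d e f) 1 :=
  (Runs.pop (S a b c d e f) 2).conv rfl (by rw [upd2]; rfl) le_rfl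

lemma pop3 : Runs (Cmd.pop 3) (S a b c d e f) (S a b c d.tail e f) 1 :=
  (Runs.pop (S a b c d e f) 3).conv rfl (by rw [upd3]; rfl) le_rfl

lemma pop4 : Runs (Cmd.pop 4) (S a b c d e f) (S a b c d e.tail f) 1 :=
  (Runs.pop (S a b c d e f) 4).conv rfl (by rw [upd4]; rfl) le_rfl

lemma pop5 : Runs (Cmd.pop 5) (S a b c d e f) (S a b c d e f.tail) 1 :=
  (Runs.pop (S a b c d e f) 5).conv rfl (by rw [upd5]; rfl) le_rfl

lemma push0 : Runs (Cmd.push 0 true) (S a b c d e f) (S (true :: a) b c d e f) 1 :=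
  (Runs.push (S a b c d e f) 0 true).conv rfl (by rw [upd0]; rfl) le_rfl

lemma push1 : Runs (Cmd.push 1 true) (S a b c d e f) (S a (true :: b) c d e f) 1 :=
  (Runs.push (S a b c d e f) 1 true).conv rfl (by rw [upd1]; rfl) le_rfl

lemma push2 : Runs (Cmd.push 2 true) (S a b c d e f) (S a b (true :: c) d e f) 1 :=
  (Runs.push (S a b c d e f) 2 true).conv rfl (by rw [upd2]; rfl) le_rfl

lemma push3 : Runs (Cmd.push 3 true) (S a b c d e f) (S a b c (true :: d) e f) 1 :=
  (Runs.push (S a b c d e f) 3 true).conv rfl (by rw [upd3]; rfl) le_rfl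

lemma push4 : Runs (Cmd.push 4 true) (S a b c d e f) (S a b c d (true :: e) f) 1 :=
  (Runs.push (S a b c d e f) 4 true).conv rfl (by rw [upd4]; rfl) le_rfl

lemma push5 : Runs (Cmd.push 5 true) (S a b c d e f) (S a b c d e (true :: f)) 1 :=
  (Runs.push (S a b c d e f) 5 true).conv rfl (by rw [upd5]; rfl) le_rfl

end

/-- move stack 1 to stacks 3 and 4 -/
def cCopy : Cmd ℕ :=
  Cmd.loop 1 (Cmd.seq (Cmd.pop 1) (Cmd.seq (Cmd.push 3 true) (Cmd.push 4 true)))

lemma runs_copy (a c f : List Bool) (k : ℕ) : ∀ i j : ℕ,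
    Runs cCopy (S a (tal k) c (tal i) (tal j) f) (S a [] c (tal (i + k)) (tal (j + k)) f)
      (4 * k + 1) := by
  induction k with
  | zero =>
    intro i j
    exact Runs.loopNil rfl
  | succ k ih =>
    intro i j
    have h1 := (pop1 a (tal (k + 1)) c (tal i) (tal j) f).seq
      ((push3 a (tal k) c (tal i) (tal j) f).seq (push4 a (tal k) c (tal (i + 1)) (tal j) f))
    have h2 := Runs.loopCons (k := 1) (s := S a (tal (k + 1)) c (tal i) (tal j) f)
      (tal_ne k) h1 (ih (i + 1) (j + 1))
    refine h2.conv rfl ?_ (by omega)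
    rw [show i + 1 + k = i + (k + 1) by omega, show j + 1 + k = j + (k + 1) by omega]

/-- move stack 4 to stacks 5 and 1 -/
def cAdd : Cmd ℕ :=
  Cmd.loop 4 (Cmd.seq (Cmd.pop 4) (Cmd.seq (Cmd.push 5 true) (Cmd.push 1 true)))

lemma runs_add (a c d : List Bool) (k : ℕ) : ∀ i j : ℕ,
    Runs cAdd (S a (tal j) c d (tal k) (tal i)) (S a (tal (j + k)) c d [] (tal (i + k)))
      (4 * k + 1) := by
  induction k with
  | zero =>
    intro i j
    exact Runs.loopNil rfl
  | succ k ih =>
    intro i j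
    have h1 := (pop4 a (tal j) c d (tal (k + 1)) (tal i)).seq
      ((push5 a (tal j) c d (tal k) (tal i)).seq (push1 a (tal j) c d (tal k) (tal (i + 1))))
    have h2 := Runs.loopCons (k := 4) (s := S a (tal j) c d (tal (k + 1)) (tal i))
      (tal_ne k) h1 (ih (i + 1) (j + 1))
    refine h2.conv rfl ?_ (by omega)
    rw [show i + 1 + k = i + (k + 1) by omega, show j + 1 + k = j + (k + 1) by omega]

/-- move stack 5 to stack 4 -/
def cBack : Cmd ℕ := Cmd.loop 5 (Cmd.seq (Cmd.pop 5) (Cmd.push 4 true))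

lemma runs_back (a b c d : List Bool) (k : ℕ) : ∀ i : ℕ,
    Runs cBack (S a b c d (tal i) (tal k)) (S a b c d (tal (i + k)) []) (3 * k + 1) := by
  induction k with
  | zero =>
    intro i
    exact Runs.loopNil rfl
  | succ k ih =>
    intro i
    have h1 := (pop5 a b c d (tal i) (tal (k + 1))).seq (push4 a b c d (tal i) (tal k))
    have h2 := Runs.loopCons (k := 5) (s := S a b c d (tal i) (tal (k + 1)))
      (tal_ne k) h1 (ih (i + 1))
    refine h2.conv rfl ?_ (by omega)
    rw [show i + 1 + k = i + (k + 1) by omega]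

/-- clear stack 4 -/
def cClear : Cmd ℕ := Cmd.loop 4 (Cmd.pop 4)

lemma runs_clear (a b c d f : List Bool) (k : ℕ) :
    Runs cClear (S a b c d (tal k) f) (S a b c d [] f) (2 * k + 1) := by
  induction k with
  | zero => exact Runs.loopNil rfl
  | succ k ih =>
    have h2 := Runs.loopCons (k := 4) (s := S a b c d (tal (k + 1)) f)
      (tal_ne k) (pop4 a b c d (tal (k + 1)) f) ih
    exact h2.conv rfl rfl (by omega)

/-- for every element of stack 3 add stack 4 to stack 1 -/
def cMul : Cmd ℕ := Cmd.loop 3 (Cmd.seq (Cmd.pop 3) (Cmd.seq cAdd cBack))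

lemma runs_mul (a c : List Bool) (m k : ℕ) : ∀ j : ℕ,
    Runs cMul (S a (tal j) c (tal m) (tal k) []) (S a (tal (j + m * k)) c [] (tal k) [])
      (m * (7 * k + 4) + 1) := by
  induction m with
  | zero =>
    intro j
    refine Runs.conv (Runs.loopNil rfl) rfl ?_ (by omega)
    rw [Nat.zero_mul, Nat.add_zero]
    rfl
  | succ m ih =>
    intro j
    have h0 : Runs cAdd (S a (tal j) c (tal m) (tal k) [])
        (S a (tal (j + k)) c (tal m) [] (tal k)) (4 * k + 1) := by
      refine (runs_add a c (tal m) k 0 j).conv rfl ?_ le_rfl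
      rw [Nat.zero_add]
    have h0' : Runs cBack (S a (tal (j + k)) c (tal m) [] (tal k))
        (S a (tal (j + k)) c (tal m) (tal k) []) (3 * k + 1) := by
      refine (runs_back a (tal (j + k)) c (tal m) k 0).conv rfl ?_ le_rfl
      rw [Nat.zero_add]
    have h1 := (pop3 a (tal j) c (tal (m + 1)) (tal k) []).seq (h0.seq h0')
    have h2 := Runs.loopCons (k := 3) (s := S a (tal j) c (tal (m + 1)) (tal k) [])
      (tal_ne m) h1 (ih (j + k))
    refine h2.conv rfl ?_ ?_
    · rw [show j + k + m * k = j + (m + 1) * k by ring]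
    · have : (m + 1) * (7 * k + 4) = m * (7 * k + 4) + (7 * k + 4) := by ring
      omega

/-- square stack 1 -/
def cSq : Cmd ℕ := Cmd.seq cCopy (Cmd.seq cMul cClear)

lemma runs_sq (a c : List Bool) (k : ℕ) :
    Runs cSq (S a (tal k) c [] [] []) (S a (tal (k * k)) c [] [] []) (17 * (k * k) + 3) := by
  have h1 : Runs cCopy (S a (tal k) c [] [] []) (S a [] c (tal k) (tal k) []) (4 * k + 1) := by
    refine (runs_copy a c [] k 0 0).conv rfl ?_ le_rfl
    rw [Nat.zero_add]
  have h2 : Runs cMul (S a [] c (tal k) (tal k) []) (S a (tal (k * k)) c [] (tal k) [])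
      (k * (7 * k + 4) + 1) := by
    refine (runs_mul a c k k 0).conv rfl ?_ le_rfl
    rw [Nat.zero_add]
  have h3 := runs_clear a (tal (k * k)) c [] [] k
  refine (h1.seq (h2.seq h3)).conv rfl rfl ?_
  have h4 : k * (7 * k + 4) = 7 * (k * k) + 4 * k := by ring
  have h5 : k ≤ k * k := by
    rcases Nat.eq_zero_or_pos k with h | h
    · simp [h]
    · exact Nat.le_mul_of_pos_left k h
  omega

/-- the main loop -/
def cMain : Cmd ℕ :=
  Cmd.loop 2 (Cmd.cases 0 (Cmd.pop 2) (Cmd.pop 2) (Cmd.seq (Cmd.pop 0) cSq))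

lemma nn_succ (r : ℕ) : nn (r + 1) = nn r * nn r := by
  unfold nn
  rw [pow_succ 2 r, pow_mul, sq]

lemma nn_mono {i j : ℕ} (h : i ≤ j) : nn i ≤ nn j := by
  unfold nn
  exact Nat.pow_le_pow_right (by norm_num) (Nat.pow_le_pow_right (by norm_num) h)

lemma runs_main (y : List Bool) (N : ℕ) (r : ℕ) : ∀ i : ℕ, i + r ≤ N →
    Runs cMain (S (tn r y) (tal (nn i)) [true] [] [] [])
      (S (false :: y) (tal (nn (i + r))) [] [] [] []) (r * (17 * nn N + 6) + 4) := by
  induction r with
  | zero =>
    intro i _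
    have h1 : Runs (Cmd.cases 0 (Cmd.pop 2) (Cmd.pop 2) (Cmd.seq (Cmd.pop 0) cSq))
        (S (false :: y) (tal (nn i)) [true] [] [] []) (S (false :: y) (tal (nn i)) [] [] [] [])
        (1 + 1) :=
      Runs.casesFalse (l := y) rfl (pop2 (false :: y) (tal (nn i)) [true] [] [] [])
    have h2 := Runs.loopCons (k := 2) (s := S (false :: y) (tal (nn i)) [true] [] [] [])
      (by simp [S]) h1 (Runs.loopNil rfl)
    refine h2.conv rfl rfl (by omega)
  | succ r ih =>
    intro i hi
    have h1 : Runs (Cmd.cases 0 (Cmd.pop 2) (Cmd.pop 2) (Cmd.seq (Cmd.pop 0) cSq))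
        (S (tn (r + 1) y) (tal (nn i)) [true] [] [] [])
        (S (tn r y) (tal (nn i * nn i)) [true] [] [] []) (1 + (17 * (nn i * nn i) + 3) + 1) :=
      Runs.casesTrue (l := tn r y) rfl
        ((pop0 (tn (r + 1) y) (tal (nn i)) [true] [] [] []).seq
          (runs_sq (tn r y) [true] (nn i)))
    rw [← nn_succ] at h1
    have h2 := Runs.loopCons (k := 2) (s := S (tn (r + 1) y) (tal (nn i)) [true] [] [] [])
      (by simp [S]) h1 (ih (i + 1) (by omega))
    refine h2.conv rfl ?_ ?_
    · rw [show i + 1 + r = i + (r + 1) by omega]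
    · have h3 : nn (i + 1) ≤ nn N := nn_mono (by omega)
      have h4 : (r + 1) * (17 * nn N + 6) = r * (17 * nn N + 6) + (17 * nn N + 6) := by ring
      omega

/-- move stack 1 to stack 0 -/
def cMove : Cmd ℕ := Cmd.loop 1 (Cmd.seq (Cmd.pop 1) (Cmd.push 0 true))

lemma tn_succ (n : ℕ) (u : List Bool) : true :: tn n u = tn (n + 1) u := rfl

lemma runs_move (y : List Bool) (k : ℕ) : ∀ i : ℕ,
    Runs cMove (S (tn i y) (tal k) [] [] [] []) (S (tn (i + k) y) [] [] [] [] []) (3 * k + 1) := by
  induction k with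
  | zero =>
    intro i
    exact Runs.loopNil rfl
  | succ k ih =>
    intro i
    have h1 := (pop1 (tn i y) (tal (k + 1)) [] [] [] []).seq
      (push0 (tn i y) (tal k) [] [] [] [])
    have h2 := Runs.loopCons (k := 1) (s := S (tn i y) (tal (k + 1)) [] [] [] [])
      (tal_ne k) h1 (ih (i + 1))
    refine h2.conv rfl ?_ (by omega)
    rw [show i + 1 + k = i + (k + 1) by omega]

lemma inp_eq (x : List Bool) : (inp x : ℕ → List Bool) = S x [] [] [] [] [] := by
  funext i
  rcases i with _ | _ | _ | _ | _ | _ | i <;> simp [inp, S]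

lemma le_nn (r : ℕ) : r ≤ nn r := by
  unfold nn
  have h1 : r < 2 ^ r := Nat.lt_two_pow_self
  have h2 : 2 ^ r < 2 ^ 2 ^ r := Nat.lt_two_pow_self
  omega

/-- the whole program -/
def cAll : Cmd ℕ :=
  Cmd.seq (Cmd.push 1 true) (Cmd.seq (Cmd.push 1 true) (Cmd.seq (Cmd.push 2 true)
    (Cmd.seq cMain cMove)))

theorem taskExpand : TaskExpand := by
  refine ⟨cAll, Polynomial.X * (17 * Polynomial.X + 6) + 3 * Polynomial.X + 8, ?_⟩
  intro r y
  have h1 := push1 (tn r y) [] [] [] [] []
  have h2 := push1 (tn r y) [true] [] [] [] []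
  have h3 := push2 (tn r y) [true, true] [] [] [] []
  have h4 : Runs cMain (S (tn r y) [true, true] [true] [] [] [])
      (S (tn 0 y) (tal (nn r)) [] [] [] []) (r * (17 * nn r + 6) + 4) := by
    have h := runs_main y r r 0 (by omega)
    rw [Nat.zero_add] at h
    exact h
  have h5 := runs_move y (nn r) 0
  rw [Nat.zero_add] at h5
  refine (h1.seq (h2.seq (h3.seq (h4.seq h5)))).conv (inp_eq _).symm (inp_eq _).symm ?_
  have h6 : (Polynomial.X * (17 * Polynomial.X + 6) + 3 * Polynomial.X + 8 :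
      Polynomial ℕ).eval (nn r + y.length)
      = (nn r + y.length) * (17 * (nn r + y.length) + 6) + 3 * (nn r + y.length) + 8 := by
    simp
  rw [h6]
  have h7 : r * (17 * nn r + 6) ≤ (nn r + y.length) * (17 * (nn r + y.length) + 6) :=
    Nat.mul_le_mul ((le_nn r).trans (Nat.le_add_right _ _)) (by omega)
  omega

end Pool.Agent.H910R3.KS.Expand
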