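import Pool.Agent.H910R3.KS.Stmts

/-!
Task FindA: the next question of the prefix search can be computed in polynomial time.
-/

set_option autoImplicit false

namespace Pool.Agent.H910R3.KS.FindA

open Pool.Agent.NPC Turing

/-- From encoded lists of booleans to raw bit strings. -/
theorem rawOut : PC (bits : List Bool → List Bool) (fun x : List Bool => x) (fun x => x) := by
  refine ⟨Cmd.seq (Cmd.loop 0 (Cmd.cases 0 Cmd.skip (Cmd.pop 0)
    (Cmd.seq (Cmd.pop 0) (Cmd.cases 0 Cmd.skip
      (Cmd.seq (Cmd.pop 0) (Cmd.push 1 false))
      (Cmd.seq (Cmd.pop 0) (Cmd.seq (Cmd.pop 0) (Cmd.seq (Cmd.pop 0) (Cmd.push 1 true))))))))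
    (mv 1 0), Polynomial.C 20 * Polynomial.X + Polynomial.C 20, fun x => ?_⟩
  rw [inp_eq_st, inp_eq_st]
  have key : ∀ x acc : List Bool, Runs (Cmd.loop 0 (Cmd.cases 0 Cmd.skip (Cmd.pop 0)
    (Cmd.seq (Cmd.pop 0) (Cmd.cases 0 Cmd.skip
      (Cmd.seq (Cmd.pop 0) (Cmd.push 1 false))
      (Cmd.seq (Cmd.pop 0) (Cmd.seq (Cmd.pop 0) (Cmd.seq (Cmd.pop 0) (Cmd.push 1 true))))))))
      (Pool.Agent.NPC.st (bits x) acc []) (Pool.Agent.NPC.st [] (x.reverse ++ acc) []) (10 * x.length + 10) := by
    intro x
    induction x with
    | nil =>
      intro acc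
      refine (Runs.loopCons (by simp [bits, T.enc]) (Runs.casesFalse (l := []) rfl
        (Runs.pop _ 0)) (Runs.loopNil (by simp [bits, T.enc]))).conv rfl ?_ (by simp)
      simp [bits, T.enc]
    | cons b x ih =>
      intro acc
      have ih' := ih (b :: acc)
      have hb : Runs (Cmd.cases 0 Cmd.skip (Cmd.pop 0)
        (Cmd.seq (Cmd.pop 0) (Cmd.cases 0 Cmd.skip
        (Cmd.seq (Cmd.pop 0) (Cmd.push 1 false))
        (Cmd.seq (Cmd.pop 0) (Cmd.seq (Cmd.pop 0) (Cmd.seq (Cmd.pop 0) (Cmd.push 1 true)))))))
        (Pool.Agent.NPC.st (bits (b :: x)) acc []) (Pool.Agent.NPC.st (bits x) (b :: acc) []) 7 := by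
        cases b with
        | false =>
          refine (Runs.casesTrue (l := false :: bits x) rfl ((Runs.pop _ 0).seq
            (Runs.casesFalse (l := bits x) (by simp [bits, T.enc]) ((Runs.pop _ 0).seq
            (Runs.push _ 1 false))))).conv rfl ?_ (by simp)
          simp [bits, T.enc]
        | true =>
          refine (Runs.casesTrue (l := true :: false :: false :: bits x) rfl ((Runs.pop _ 0).seq
            (Runs.casesTrue (l := false :: false :: bits x) (by simp [bits, T.enc])
              ((Runs.pop _ 0).seq ((Runs.pop _ 0).seq ((Runs.pop _ 0).seq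
              (Runs.push _ 1 true))))))).conv rfl ?_ (by simp)
          simp [bits, T.enc]
      refine (Runs.loopCons (by simp [bits, T.enc]) hb ih').conv rfl ?_ ?_
      · simp
      · simp; omega
  have h3 := key x []
  rw [List.append_nil] at h3
  refine (h3.seq (mv_runs (i := 1) (j := 0) (by decide) x.reverse _ (Pool.Agent.NPC.st x [] []) rfl
    (by simp))).mono ?_
  have h4 := sz_listBool_ge x
  rw [← bits_length] at h4
  simp only [List.length_reverse, Polynomial.eval_add, Polynomial.eval_mul, Polynomial.eval_C,
    Polynomial.eval_X]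
  omega

theorem pconst {α β : Type} [TEnc α] [TEnc β] (b : β) : NPC.Poly (fun _ : α => b) := PC.const b

theorem toPoly {f : List Bool → List Bool} (h : PolyTime f) : Poly f :=
  PC.comp (g := fun x => x) (f := f) PC.rawIn
    (PC.comp (g := f) (f := fun x => x) (H642R2.TMSim.polyTime_toPC h) rawOut)

theorem ofPoly {f : List Bool → List Bool} (h : Poly f) : PolyTime f :=
  PC.toPolyTime (PC.comp (g := fun x => x) (f := f) rawOut
    (PC.comp (g := f) (f := fun x => x) h PC.rawIn))

/-- the leading `true`s -/
def hdt (x : List Bool) : List Bool := x.foldr (fun b acc => if b = true then true :: acc else []) []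

/-- the rest after the first `false` -/
def rst (x : List Bool) : List Bool := x.drop ((hdt x).length + 1)

theorem hdt_tn (n : ℕ) (u : List Bool) : hdt (tn n u) = List.replicate n true := by
  induction n with
  | zero => simp [hdt, tn]
  | succ n ih =>
    unfold hdt tn at *
    rw [List.replicate_succ, List.cons_append, List.foldr_cons, ih]
    simp

theorem rst_tn (n : ℕ) (u : List Bool) : rst (tn n u) = u := by
  unfold rst
  rw [hdt_tn, List.length_replicate]
  unfold tn
  rw [List.drop_append]
  simp

theorem hdt_length (x : List Bool) : (hdt x).length ≤ x.length := by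
  induction x with
  | nil => simp [hdt]
  | cons b x ih =>
    unfold hdt at *
    rw [List.foldr_cons]
    split_ifs
    · simpa using ih
    · simp

theorem poly_hdt : Poly hdt := by
  refine Poly.foldr (l := fun x : List Bool => x) (s := fun _ => ([] : List Bool))
    (F := fun _ b acc => if b = true then true :: acc else []) Poly.id (pconst _) ?_
    (Polynomial.C 4 * Polynomial.X + Polynomial.C 1) ?_
  · exact Poly.ite (Poly.decide_bool (Poly.fst (Poly.snd Poly.id)))
      (Poly.cons (pconst true) (Poly.snd (Poly.snd Poly.id))) (pconst _)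
  · intro x k _
    have h1 : (hdt (x.drop k)).length ≤ (x.drop k).length := hdt_length _
    have h2 := sz_listBool_le (hdt (x.drop k))
    have h3 := length_lt_sz x
    have h4 : (x.drop k).length ≤ x.length := by simp
    simp only [Polynomial.eval_add, Polynomial.eval_mul, Polynomial.eval_C, Polynomial.eval_X]
    change sz (hdt (x.drop k)) ≤ _
    omega

theorem tail_iterate {α : Type} (k : ℕ) (x : List α) : List.tail^[k] x = x.drop k := by
  induction k generalizing x with
  | zero => rfl
  | succ k ih =>
    rw [Function.iterate_succ_apply, ih, List.drop_tail]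

theorem poly_rst : Poly rst := by
  have h1 : Poly (fun x : List Bool => (true :: hdt x)) := Poly.cons (pconst true) poly_hdt
  refine (Poly.iterLen (l := fun x : List Bool => (true :: hdt x)) (s := fun x => x)
    (F := fun _ s => s.tail) h1 Poly.id (Poly.tail (Poly.snd Poly.id)) Polynomial.X ?_).congr
    fun x => ?_
  · intro x k _
    change sz (List.tail^[k] x) ≤ _
    rw [tail_iterate, Polynomial.eval_X]
    exact Poly.sz_drop_le _ _
  · change List.tail^[_] x = _
    rw [tail_iterate, List.length_cons]
    rfl

/-- one step of the prefix search, `ν` is the unary number -/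
def stp (Sd f : List Bool → List Bool) (ν u : List Bool) : List Bool :=
  u ++ [!(st Sd f (ν ++ false :: (u ++ [false])))]

theorem stp_length (Sd f : List Bool → List Bool) (ν : List Bool) (k : ℕ) :
    ((stp Sd f ν)^[k] []).length = k := by
  induction k with
  | zero => rfl
  | succ k ih =>
    rw [Function.iterate_succ_apply']
    unfold stp at *
    simp [ih]

theorem stp_iterate (Sd f : List Bool → List Bool) (n k : ℕ) :
    (stp Sd f (List.replicate n true))^[k] [] = pre (st Sd f) n k := by
  induction k with
  | zero => rfl
  | succ k ih =>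
    rw [Function.iterate_succ_apply', ih]
    rfl

/-- The iterated prefix search is polynomial-time, the number `m x` of rounds is given in unary. -/
theorem poly_iter {Sd f : List Bool → List Bool} (hSd : PolyTime Sd) (hf : PolyTime f)
    {m : List Bool → ℕ} (hm : UPoly m) (hb : ∀ x, m x ≤ (hdt x).length ^ 2 + 1) :
    Poly (fun x => (stp Sd f (hdt x))^[m x] []) := by
  have hS := toPoly hSd
  have hF := toPoly hf
  have h1 : Poly (fun p : List Bool × List Bool => stp Sd f (hdt p.1) p.2) := by
    have hν : Poly (fun p : List Bool × List Bool => hdt p.1) := poly_hdt.comp (Poly.fst Poly.id)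
    have hu : Poly (fun p : List Bool × List Bool => p.2) := Poly.snd Poly.id
    have ht : Poly (fun p : List Bool × List Bool => hdt p.1 ++ false :: (p.2 ++ [false])) :=
      Poly.append hν (Poly.cons (pconst false) (Poly.append hu (pconst [false])))
    have hs : Poly (fun p : List Bool × List Bool =>
        st Sd f (hdt p.1 ++ false :: (p.2 ++ [false]))) :=
      Poly.decide_eq (hS.comp (hF.comp ht)) (pconst [true])
    exact Poly.append hu (Poly.cons (Poly.not hs) (pconst []))
  refine (Poly.iterLen (l := fun x : List Bool => List.replicate (m x) ())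
    (s := fun _ => ([] : List Bool)) (F := fun x u => stp Sd f (hdt x) u) hm (pconst _) h1
    (Polynomial.C 4 * (Polynomial.X ^ 2 + Polynomial.C 1) + Polynomial.C 1) ?_).congr fun x => ?_
  · intro x k hk
    rw [List.length_replicate] at hk
    change sz ((stp Sd f (hdt x))^[k] []) ≤ _
    have h2 := sz_listBool_le ((stp Sd f (hdt x))^[k] [])
    rw [stp_length] at h2
    have h3 := length_lt_sz x
    have h4 := hdt_length x
    have h5 := hb x
    have h6 : (hdt x).length ^ 2 ≤ (sz x) ^ 2 := Nat.pow_le_pow_left (by omega) 2
    simp only [Polynomial.eval_add, Polynomial.eval_mul, Polynomial.eval_C, Polynomial.eval_X,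
      Polynomial.eval_pow]
    omega
  · rw [List.length_replicate]

theorem upoly_sq : UPoly (fun x => (hdt x).length ^ 2 + 1) := by
  have h1 : UPoly (fun x => (hdt x).length) := UPoly.length poly_hdt
  have h2 := (h1.mul h1).add (UPoly.const 1)
  have h3 : (fun x : List Bool => (hdt x).length ^ 2 + 1) =
      fun x => (hdt x).length * (hdt x).length + 1 := by
    funext x; rw [sq]
  rw [h3]
  exact h2

theorem taskFindA : TaskFindA := by
  intro Sd f hSd hf
  have hm : UPoly (fun x => min (valB (rst x)) ((hdt x).length ^ 2 + 1)) :=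
    UPoly.of_le (Poly.min (Poly.valBits poly_rst) upoly_sq.toPoly) upoly_sq
      (fun x => min_le_right _ _)
  have h1 := poly_iter hSd hf hm (fun x => min_le_right _ _)
  refine ⟨fun x => f (hdt x ++ false :: ((stp Sd f (hdt x))^[min (valB (rst x))
    ((hdt x).length ^ 2 + 1)] [] ++ [false])), ?_, ?_⟩
  · apply ofPoly
    exact (toPoly hf).comp (Poly.append poly_hdt (Poly.cons (pconst false)
      (Poly.append h1 (pconst [false]))))
  · intro n j hj
    simp only [hdt_tn, rst_tn, valB_bits, List.length_replicate, stp_iterate]
    rw [min_eq_left (by omega)]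
    rfl

end Pool.Agent.H910R3.KS.FindA
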