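import Pool.Agent.H910R3.KS.Stmts
import Pool.Agent.H622R2.CoNP

/-! # The result of the prefix search can be computed in polynomial time (helper369) -/

set_option autoImplicit false

namespace Pool.Agent.H910R3.KS.FindB

open Pool.Agent.NPC Pool.Agent.H910R3.KS Pool.Agent.H622R2

theorem sz_lb (l : List Bool) : sz l ≤ 4 * l.length + 1 := by
  have := sz_le_length_mul l 3 (fun b _ => sz_bool_le b)
  omega

/-- one step of dropping -/
def ds (s : List Bool) (_ : Bool) : List Bool := if s.head? = some false then s.tail else s

theorem ds_fold : ∀ (m l : List Bool), l.length ≤ m.length →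
    m.foldl ds l = l.dropWhile (fun b => !b) := by
  intro m
  induction m with
  | nil =>
    intro l hl
    have : l = [] := List.eq_nil_of_length_eq_zero (by simpa using hl)
    subst this
    rfl
  | cons a m ih =>
    intro l hl
    rw [List.foldl_cons]
    match l, hl with
    | [], _ =>
      change m.foldl ds [] = _
      rw [ih [] (Nat.zero_le _)]
    | true :: t, hl =>
      change m.foldl ds (true :: t) = _
      have hstay : ∀ m' : List Bool, m'.foldl ds (true :: t) = true :: t := by
        intro m'
        induction m' with
        | nil => rfl
        | cons b m' ih' =>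
          rw [List.foldl_cons]
          exact ih'
      rw [hstay]
      rfl
    | false :: t, hl =>
      change m.foldl ds t = _
      rw [ih t (by simpa using hl)]
      rfl

theorem sz_ds_le (s : List Bool) (b : Bool) : sz (ds s b) ≤ sz s := by
  unfold ds
  split
  · have := Poly.sz_drop_le s 1
    rwa [List.drop_one] at this
  · exact le_rfl

theorem sz_ds_fold_le : ∀ (m s : List Bool), sz (m.foldl ds s) ≤ sz s := by
  intro m
  induction m with
  | nil => intro s; exact le_rfl
  | cons a m ih =>
    intro s
    rw [List.foldl_cons]
    exact (ih _).trans (sz_ds_le s a)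

theorem poly_dropWhile : Poly (fun l : List Bool => l.dropWhile (fun b => !b)) := by
  have hstep : Poly (fun p : List Bool × List Bool × Bool => ds p.2.1 p.2.2) := by
    have h2 : Poly (fun p : List Bool × List Bool × Bool => p.2.1) := Poly.fst (Poly.snd Poly.id)
    exact Poly.ite (Poly.decide_eq (Poly.head? h2) (NPC.Poly.const _)) (Poly.tail h2) h2
  have h := Poly.foldl (l := fun l : List Bool => l) (s := fun l : List Bool => l)
    (F := fun _ => ds) Poly.id Poly.id hstep Polynomial.X (by
      intro a k _
      rw [Polynomial.eval_X]
      exact sz_ds_fold_le _ _)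
  exact h.congr fun l => ds_fold l l le_rfl

theorem poly_dec : Poly dec :=
  Poly.reverse (Poly.tail (poly_dropWhile.comp (Poly.reverse Poly.id)))

/-- one step of the search -/
def fs (Sd f : List Bool → List Bool) (x u : List Bool) (_ : ℕ) : List Bool :=
  u ++ [!(decide (Sd (f (x ++ (u ++ [false]))) = [true]))]

theorem fs_pre (Sd f : List Bool → List Bool) (n : ℕ) : ∀ k : ℕ,
    (List.range k).foldl (fs Sd f (tn n [])) [] = pre (st Sd f) n k := by
  intro k
  induction k with
  | zero => rfl
  | succ k ih =>
    rw [List.range_succ, List.foldl_append, ih]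
    change fs Sd f (tn n []) (pre (st Sd f) n k) k = pre (st Sd f) n (k + 1)
    have h : tn n [] ++ (pre (st Sd f) n k ++ [false]) = tn n (pre (st Sd f) n k ++ [false]) := by
      simp [tn]
    simp only [fs, h]
    rfl

theorem fs_length (Sd f : List Bool → List Bool) (x : List Bool) : ∀ l : List ℕ, ∀ s : List Bool,
    (l.foldl (fs Sd f x) s).length = l.length + s.length := by
  intro l
  induction l with
  | nil => intro s; simp
  | cons a l ih =>
    intro s
    rw [List.foldl_cons, ih]
    simp [fs]
    omega

theorem taskFindB : TaskFindB := by
  intro Sd f hS hf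
  have pS := poly_of_polyTime hS
  have pf := poly_of_polyTime hf
  have hstep : Poly (fun p : List Bool × List Bool × ℕ => fs Sd f p.1 p.2.1 p.2.2) := by
    have h1 : Poly (fun p : List Bool × List Bool × ℕ => p.1) := Poly.fst Poly.id
    have h2 : Poly (fun p : List Bool × List Bool × ℕ => p.2.1) := Poly.fst (Poly.snd Poly.id)
    have h3 : Poly (fun p : List Bool × List Bool × ℕ => p.1 ++ (p.2.1 ++ [false])) :=
      Poly.append h1 (Poly.append h2 (NPC.Poly.const _))
    have h4 : Poly (fun p : List Bool × List Bool × ℕ => Sd (f (p.1 ++ (p.2.1 ++ [false])))) :=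
      pS.comp (pf.comp h3)
    exact Poly.append h2 (Poly.cons (Poly.not (Poly.decide_eq h4 (NPC.Poly.const _)))
      (NPC.Poly.const []))
  have hN : UPoly (fun x : List Bool => x.tail.length * x.tail.length + 1) :=
    UPoly.add (UPoly.mul (UPoly.length (Poly.tail Poly.id)) (UPoly.length (Poly.tail Poly.id)))
      (UPoly.const 1)
  have hfold := Poly.foldl (l := fun x : List Bool =>
      List.range (x.tail.length * x.tail.length + 1)) (s := fun _ => ([] : List Bool))
    (F := fun x => fs Sd f x) hN.range (NPC.Poly.const _) hstep
    (Polynomial.C 4 * (Polynomial.X ^ 2 + Polynomial.C 1) + Polynomial.C 1) (by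
      intro x k hk
      refine (sz_lb _).trans ?_
      rw [fs_length]
      have h1 : ((List.range (x.tail.length * x.tail.length + 1)).take k).length ≤
          x.tail.length * x.tail.length + 1 := by
        rw [List.length_take]
        refine (min_le_right _ _).trans ?_
        rw [List.length_range]
      have h2 : x.tail.length ≤ sz x := by
        have := length_lt_sz x
        have h3 : x.tail.length ≤ x.length := by
          rw [List.length_tail]; omega
        omega
      have h4 : x.tail.length * x.tail.length ≤ sz x * sz x := Nat.mul_le_mul h2 h2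
      simp only [Polynomial.eval_add, Polynomial.eval_mul, Polynomial.eval_pow,
        Polynomial.eval_X, Polynomial.eval_C, List.length_nil]
      rw [pow_two]
      omega)
  refine ⟨fun x => dec ((List.range (x.tail.length * x.tail.length + 1)).foldl (fs Sd f x) []),
    polyTime_of_poly_list (poly_dec.comp hfold), ?_⟩
  intro n
  have hl : (tn n []).tail.length = n := by
    simp [tn]
  change dec ((List.range ((tn n []).tail.length * (tn n []).tail.length + 1)).foldl
    (fs Sd f (tn n [])) []) = _
  rw [hl, fs_pre, pow_two]

end Pool.Agent.H910R3.KS.FindB
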