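import Pool.Agent.H910R3.KS.Stmts
import Pool.Agent.H622R2.CoNP

/-! A set in `P` that differs from `SAT` at finitely many strings gives `P = NP`. -/

set_option autoImplicit false

namespace Pool.Agent.H910R3.KS.Finite2

open Pool.Agent.NPC Pool.Agent.H910R3.KS

theorem inP_insert {S : Set (List Bool)} (hS : InP S) (a : List Bool) : InP (insert a S) := by
  obtain ⟨V, hV, hV2⟩ := hS
  have hV' : NPC.Poly V := H622R2.poly_of_polyTime hV
  have hg : NPC.Poly (fun y : List Bool => if y = a then true else decide (V y = [true])) :=
    NPC.Poly.ite (NPC.Poly.decide_eq NPC.Poly.id (NPC.Poly.const a)) (NPC.Poly.const true)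
      (NPC.Poly.decide_eq hV' (NPC.Poly.const [true]))
  refine ⟨_, polyTime_of_poly hg, fun x => ?_⟩
  rw [Set.mem_insert_iff, hV2 x]
  by_cases h : x = a
  · simp [h]
  · simp [h]

theorem inP_union {S : Set (List Bool)} (hS : InP S) (l : List (List Bool)) :
    InP {x | x ∈ S ∨ x ∈ l} := by
  induction l with
  | nil => simpa using hS
  | cons a l ih =>
    have h := inP_insert ih a
    have he : {x | x ∈ S ∨ x ∈ a :: l} = insert a {x | x ∈ S ∨ x ∈ l} := by
      ext x
      simp only [Set.mem_ofPred_eq, List.mem_cons, Set.mem_insert_iff]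
      tauto
    rw [he]
    exact h

theorem taskFinite : TaskFinite := by
  intro S n hS hSS h L hL
  have hfin : ({x | x ∈ lang SAT ∧ x.length < n} : Set (List Bool)).Finite :=
    (List.finite_length_lt Bool n).subset fun x hx => hx.2
  have hSAT : InP (lang SAT) := by
    have h1 := inP_union hS hfin.toFinset.toList
    have he : {x | x ∈ S ∨ x ∈ hfin.toFinset.toList} = lang SAT := by
      ext x
      simp only [Set.mem_ofPred_eq, Finset.mem_toList, Set.Finite.mem_toFinset]
      constructor
      · rintro (hx | hx)
        · exact hSS hx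
        · exact hx.1
      · intro hx
        by_cases hl : n ≤ x.length
        · exact Or.inl (h x hx hl)
        · exact Or.inr ⟨hx, by omega⟩
    rw [← he]
    exact h1
  exact InP.of_reduces (npHard_SAT L hL) hSAT

end Pool.Agent.H910R3.KS.Finite2
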