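import Pool.Agent.H910R3.KS.Stmts

set_option autoImplicit false

namespace Pool.Agent.H910R3.KS.Grow

open Pool.Agent.H910R3.KS

theorem eval_le (p : Polynomial ℕ) (x : ℕ) (hx : 1 ≤ x) :
    p.eval x ≤ p.eval 1 * x ^ p.natDegree := by
  rw [Polynomial.eval_eq_sum_range, Polynomial.eval_eq_sum_range, Finset.sum_mul]
  refine Finset.sum_le_sum fun i hi => ?_
  rw [one_pow, mul_one]
  refine Nat.mul_le_mul_left _ (Nat.pow_le_pow_right hx ?_)
  have := Finset.mem_range.1 hi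
  omega

theorem le_nn (r : ℕ) : r ≤ nn r := by
  unfold nn
  exact (Nat.lt_two_pow_self.trans Nat.lt_two_pow_self).le

theorem taskGrow : TaskGrow := by
  intro G hG p
  obtain ⟨n₀, hn₀⟩ := hG (p.natDegree + 1)
  refine ⟨n₀ + p.eval 1 * 4 ^ p.natDegree + 1, fun r hr N hN => ?_⟩
  have h1 := le_nn r
  have hm : p.eval 1 * 4 ^ p.natDegree ≤ nn r := by omega
  have hm1 : 1 ≤ nn r := by omega
  calc p.eval (4 * nn r) ≤ p.eval 1 * (4 * nn r) ^ p.natDegree := eval_le p _ (by omega)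
    _ = (p.eval 1 * 4 ^ p.natDegree) * nn r ^ p.natDegree := by rw [mul_pow]; ring
    _ ≤ nn r * nn r ^ p.natDegree := Nat.mul_le_mul_right _ hm
    _ = nn r ^ (p.natDegree + 1) := by ring
    _ ≤ N ^ (p.natDegree + 1) := Nat.pow_le_pow_left hN _
    _ < G N := hn₀ N (by omega)

end Pool.Agent.H910R3.KS.Grow
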