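import Pool.Agent.H910R3.KS.Stmts

/-!
# Satisfiability of conjunctive normal forms is in NP

Task NPSat of the project H910-KS (written by helper181).  The certificate is the list of the
variables that are true.
-/

set_option autoImplicit false

namespace Pool.Agent.H910R3.KS.NPSat

open Pool.Agent.NPC

/-- The verifier: the assignment making true exactly the variables of the list `p.2` satisfies
`p.1`. -/
def R (p : List (List (Bool × ℕ)) × List ℕ) : Bool :=
  p.1.all (fun c => c.any (fun l => decide (decide (l.2 ∈ p.2) = l.1)))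

theorem poly_R : Poly R := by
  refine Poly.all (l := fun p : List (List (Bool × ℕ)) × List ℕ => p.1)
    (p := fun p c => c.any (fun l => decide (decide (l.2 ∈ p.2) = l.1))) (Poly.fst Poly.id) ?_
  refine Poly.any (l := fun q : (List (List (Bool × ℕ)) × List ℕ) × List (Bool × ℕ) => q.2)
    (p := fun q l => decide (decide (l.2 ∈ q.1.2) = l.1)) (Poly.snd Poly.id) ?_
  exact Poly.decide_eq (Poly.decide_mem (Poly.snd (Poly.snd Poly.id))
    (Poly.snd (Poly.fst (Poly.fst Poly.id)))) (Poly.fst (Poly.snd Poly.id))

theorem sz_filter_le {α : Type} [TEnc α] (p : α → Bool) (l : List α) :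
    sz (l.filter p) ≤ sz l := by
  induction l with
  | nil => simp
  | cons a l ih =>
    rw [List.filter_cons]
    split
    · rw [sz_list_cons, sz_list_cons]; omega
    · rw [sz_list_cons]; omega

theorem sz_map_snd_le (l : List (Bool × ℕ)) : sz (l.map Prod.snd) ≤ sz l := by
  induction l with
  | nil => simp
  | cons a l ih =>
    obtain ⟨b, n⟩ := a
    rw [List.map_cons, sz_list_cons, sz_list_cons, sz_pair]
    dsimp only
    omega

theorem sz_flatMap_le (l : List (List (Bool × ℕ))) :
    sz (l.flatMap (fun c => c.map Prod.snd)) ≤ sz l := by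
  induction l with
  | nil => simp
  | cons a l ih =>
    rw [List.flatMap_cons, sz_list_cons]
    have h1 := sz_append (a.map Prod.snd) (l.flatMap (fun c => c.map Prod.snd))
    have h2 := sz_map_snd_le a
    omega

theorem taskNPSat : TaskNPSat := by
  refine inNPP_of (β := List ℕ) (R := R) poly_R Polynomial.X fun φ => ?_
  constructor
  · rintro ⟨τ, hτ⟩
    refine ⟨(φ.flatMap (fun c => c.map Prod.snd)).filter τ, ?_, ?_⟩
    · rw [Polynomial.eval_X]
      exact (sz_filter_le _ _).trans (sz_flatMap_le _)
    · unfold R
      rw [List.all_eq_true]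
      intro c hc
      rw [List.any_eq_true]
      obtain ⟨l, hl, hτl⟩ := hτ c hc
      refine ⟨l, hl, ?_⟩
      rw [decide_eq_true_eq, ← hτl]
      have hmem : l.2 ∈ φ.flatMap (fun c => c.map Prod.snd) :=
        List.mem_flatMap.2 ⟨c, hc, List.mem_map.2 ⟨l, hl, rfl⟩⟩
      cases h : τ l.2 with
      | true =>
        rw [decide_eq_true_eq, List.mem_filter]
        exact ⟨hmem, h⟩
      | false =>
        rw [decide_eq_false_iff_not, List.mem_filter]
        rintro ⟨-, h'⟩
        rw [h] at h'
        exact Bool.noConfusion h'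
  · rintro ⟨w, -, hR⟩
    refine ⟨fun v => decide (v ∈ w), fun c hc => ?_⟩
    unfold R at hR
    rw [List.all_eq_true] at hR
    have h := hR c hc
    rw [List.any_eq_true] at h
    obtain ⟨l, hl, h'⟩ := h
    rw [decide_eq_true_eq] at h'
    exact ⟨l, hl, h'⟩

end Pool.Agent.H910R3.KS.NPSat
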