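import Pool.Agent.H910R3.KS.Stmts

set_option autoImplicit false

namespace Pool.Agent.H910R3.KS.Pad

open Pool.Agent.NPC Turing Pool.Agent.H910R3.KS

/-- the tautological clause -/
def taut : List (Bool × ℕ) := [(true, 0), (false, 0)]

/-- decode and pad -/
def g (a : ℕ) (q : List Bool × List Bool) : List (List (Bool × ℕ)) :=
  (match unbits (List (List (Bool × ℕ))) q.2 with
    | none => [[]]
    | some φ => φ) ++ (List.replicate (q.1.length ^ a) ()).map (fun _ => taut)

theorem upoly_len (a : ℕ) : UPoly (fun q : List Bool × List Bool => q.1.length ^ a) := by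
  have h := UPoly.eval (UPoly.length (Poly.fst (Poly.id (α := List Bool × List Bool))))
    (Polynomial.X ^ a)
  simpa only [Polynomial.eval_pow, Polynomial.eval_X] using h

theorem poly_g (a : ℕ) : Poly (g a) := by
  have h1 : Poly (fun q : List Bool × List Bool =>
      match unbits (List (List (Bool × ℕ))) q.2 with
        | none => [[]]
        | some φ => φ) :=
    (NPC.Poly.optCases (o := fun q : List Bool × List Bool => unbits (List (List (Bool × ℕ))) q.2)
      (g := fun _ => ([[]] : List (List (Bool × ℕ)))) (h := fun _ φ => φ)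
      (NPC.Poly.comp poly_unbits (NPC.Poly.snd NPC.Poly.id)) (NPC.Poly.const _)
      (NPC.Poly.snd NPC.Poly.id)).congr fun q => by
        cases unbits (List (List (Bool × ℕ))) q.2 <;> rfl
  have h2 : Poly (fun q : List Bool × List Bool =>
      (List.replicate (q.1.length ^ a) ()).map (fun _ => taut)) :=
    NPC.Poly.map (F := fun _ _ => taut) (upoly_len a) (NPC.Poly.const _)
  exact NPC.Poly.append h1 h2

theorem sat_pad (φ : List (List (Bool × ℕ))) (N : ℕ) :
    SAT (φ ++ (List.replicate N ()).map (fun _ => taut)) ↔ SAT φ := by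
  constructor
  · rintro ⟨τ, h⟩
    exact ⟨τ, fun c hc => h c (List.mem_append_left _ hc)⟩
  · rintro ⟨τ, h⟩
    refine ⟨τ, fun c hc => ?_⟩
    rcases List.mem_append.1 hc with hc | hc
    · exact h c hc
    · obtain ⟨_, _, rfl⟩ := List.mem_map.1 hc
      cases h0 : τ 0 with
      | true => exact ⟨(true, 0), by simp [taut], h0⟩
      | false => exact ⟨(false, 0), by simp [taut], h0⟩

theorem taskPad : TaskPad := by
  intro L hL a
  obtain ⟨f0, hf0, h0⟩ := npHard_SAT L hL
  refine ⟨fun t => bits (g a (t, f0 t)), ?_, ?_, ?_⟩
  · have h1 : PC (fun x : List Bool => x) (fun x : List Bool => x) f0 :=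
      H642R2.TMSim.polyTime_toPC hf0
    have h2 : PC (fun x : List Bool => x) (bits : List Bool → List Bool) f0 :=
      PC.comp (g := fun x => x) (f := f0) PC.rawIn h1
    have h3 : PC (fun x : List Bool => x) T.enc (fun x => toT x) := PC.rawIn
    have h4 : PC (fun x : List Bool => x) T.enc (fun x => toT (f0 x)) := h2
    have h5 : PC (fun x : List Bool => x) (bits : List Bool × List Bool → List Bool)
        (fun x => (x, f0 x)) := PC.node h3 h4
    obtain ⟨c, p, h⟩ := PC.comp (g := g a) (f := fun x => (x, f0 x)) (poly_g a) h5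
    exact PC.toPolyTime ⟨c, p, h⟩
  · intro t
    rw [h0, mem_lang_iff, bits_mem_lang]
    unfold g
    rw [sat_pad]
    cases hu : unbits (List (List (Bool × ℕ))) (f0 t) with
    | none =>
      constructor
      · rintro ⟨b, hb, _⟩
        exact absurd hb (by simp)
      · rintro ⟨τ, h⟩
        obtain ⟨l, hl, _⟩ := h [] (by simp)
        exact absurd hl (by simp)
    | some φ =>
      constructor
      · rintro ⟨b, hb, h⟩
        rwa [Option.some.inj hb]
      · intro h
        exact ⟨φ, rfl, h⟩
  · intro t
    rw [bits_length]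
    have h := length_lt_sz (g a (t, f0 t))
    have h2 : (t.length) ^ a ≤ (g a (t, f0 t)).length := by
      unfold g
      simp
    exact h2.trans h.le

end Pool.Agent.H910R3.KS.Pad
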