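import Pool.Agent.H910R3.KS.Stmts
import Pool.Agent.H622R2.CoNP

/-!
# Kolmogorov-simple satisfiable formulas: task T (helper235)
-/

set_option autoImplicit false

namespace Pool.Agent.H910R3.KS.T

open Pool.Agent.NPC Pool.Agent.H622R2 Pool.Agent.H910R3.KS

/-- one step of `dropWhile`, on reversed lists -/
def dwF (p : Bool → Bool) (s : List Bool) (b : Bool) : List Bool :=
  if s = [] ∧ p b = true then [] else b :: s

theorem dwF_foldl_ne (p : Bool → Bool) : ∀ (l s : List Bool), s ≠ [] →
    l.foldl (dwF p) s = l.reverse ++ s := by
  intro l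
  induction l with
  | nil => intro s _; rfl
  | cons b l ih =>
    intro s hs
    rw [List.foldl_cons]
    have h1 : dwF p s b = b :: s := by
      unfold dwF
      rw [if_neg]
      rintro ⟨h, -⟩
      exact hs h
    rw [h1, ih (b :: s) (by simp)]
    simp

theorem dwF_foldl (p : Bool → Bool) (l : List Bool) :
    l.foldl (dwF p) [] = (l.dropWhile p).reverse := by
  induction l with
  | nil => rfl
  | cons b l ih =>
    rw [List.foldl_cons]
    by_cases hb : p b = true
    · have h1 : dwF p [] b = [] := by
        unfold dwF
        rw [if_pos ⟨rfl, hb⟩]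
      rw [h1, ih, List.dropWhile_cons_of_pos hb]
    · have h1 : dwF p [] b = [b] := by
        unfold dwF
        rw [if_neg]
        rintro ⟨-, h⟩
        exact hb h
      rw [h1, dwF_foldl_ne p l [b] (by simp), List.dropWhile_cons_of_neg hb]
      simp

theorem poly_dropWhile {α : Type} [TEnc α] {l : α → List Bool} (hl : Poly l) (p : Bool → Bool)
    (hp : Poly p) : Poly (fun a => (l a).dropWhile p) := by
  obtain ⟨r, hr⟩ := hl.sz_le
  refine (Poly.reverse (Poly.foldl (l := l) (s := fun _ => ([] : List Bool))
    (F := fun _ s b => dwF p s b) hl (NPC.Poly.const _) ?_ r ?_)).congr fun a => ?_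
  · unfold dwF
    have h1 : Poly (fun q : α × List Bool × Bool => q.2.1) := Poly.fst (Poly.snd Poly.id)
    have h2 : Poly (fun q : α × List Bool × Bool => q.2.2) := Poly.snd (Poly.snd Poly.id)
    exact Poly.ite (Poly.decide_and (Poly.decide_eq h1 (NPC.Poly.const _))
      (Poly.decide_bool (hp.comp h2))) (NPC.Poly.const _) (Poly.cons h2 h1)
  · intro a k _
    have h3 : ((l a).take k).foldl (dwF p) [] = (((l a).take k).dropWhile p).reverse :=
      dwF_foldl p _
    have h4 : sz (((l a).take k).foldl (fun s b => dwF p s b) []) ≤ r.eval (sz a) := by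
      rw [show (fun s b => dwF p s b) = dwF p from rfl, h3, sz_reverse]
      have h5 : ∀ m : List Bool, sz (m.dropWhile p) ≤ sz m := by
        intro m
        induction m with
        | nil => simp
        | cons b m ih =>
          by_cases hb : p b = true
          · rw [List.dropWhile_cons_of_pos hb]
            have := sz_pos b
            simp
            omega
          · rw [List.dropWhile_cons_of_neg hb]
      exact (h5 _).trans ((NPC.Poly.sz_take_le _ _).trans (hr a))
    exact h4
  · have h3 : (l a).foldl (fun s b => dwF p s b) [] = ((l a).dropWhile p).reverse := dwF_foldl p _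
    rw [h3, List.reverse_reverse]

theorem poly_idb : Poly (fun b : Bool => b) := Poly.id

theorem poly_dec {α : Type} [TEnc α] {l : α → List Bool} (hl : Poly l) :
    Poly (fun a => dec (l a)) := by
  unfold dec
  exact Poly.reverse (Poly.tail (poly_dropWhile (Poly.reverse hl) (fun b => !b) (Poly.not Poly.id)))

/-- the number coded in unary -/
def nt (t : List Bool) : ℕ := t.length - (t.dropWhile (fun b => b)).length

/-- the string -/
def ut (t : List Bool) : List Bool := (t.dropWhile (fun b => b)).tail

theorem dw_tn (n : ℕ) (u : List Bool) : (tn n u).dropWhile (fun b => b) = false :: u := by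
  induction n with
  | zero => simp [tn]
  | succ n ih =>
    rw [tn, List.replicate_succ, List.cons_append, List.dropWhile_cons_of_pos (by simp)]
    exact ih

theorem tn_length (n : ℕ) (u : List Bool) : (tn n u).length = n + 1 + u.length := by
  simp [tn]
  omega

theorem nt_tn (n : ℕ) (u : List Bool) : nt (tn n u) = n := by
  rw [nt, dw_tn, tn_length, List.length_cons]
  omega

theorem ut_tn (n : ℕ) (u : List Bool) : ut (tn n u) = u := by
  rw [ut, dw_tn, List.tail_cons]

theorem poly_ut {α : Type} [TEnc α] {t : α → List Bool} (ht : Poly t) :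
    Poly (fun a => ut (t a)) := by
  unfold ut
  exact Poly.tail (poly_dropWhile ht (fun b => b) Poly.id)

theorem upoly_nt {α : Type} [TEnc α] {t : α → List Bool} (ht : Poly t) :
    UPoly (fun a => nt (t a)) := by
  refine UPoly.of_le (n := fun a => (t a).length) ?_ (UPoly.length ht) (fun a => Nat.sub_le _ _)
  unfold nt
  exact Poly.sub (Poly.length ht) (Poly.length (poly_dropWhile ht (fun b => b) Poly.id))

theorem poly_tn {α : Type} [TEnc α] {n : α → ℕ} {u : α → List Bool} (hn : UPoly n) (hu : Poly u) :
    Poly (fun a => tn (n a) (u a)) := by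
  unfold tn
  have h2 : Poly (fun a => List.replicate (n a) true) :=
    (NPC.Poly.map (F := fun _ _ => true) hn (NPC.Poly.const true)).congr fun a => by simp
  exact Poly.append h2 (Poly.cons (NPC.Poly.const false) hu)

/-- the verifier -/
def vf (V : List Bool → List Bool) (p : Polynomial ℕ) (t w c : List Bool) : Bool :=
  decide (t = tn (nt t) (ut t)) &&
  (decide ((ut t ++ w).length = nt t * nt t + 1) &&
  (decide (nt t ≤ (dec (ut t ++ w)).length) &&
  (decide (c.length ≤ p.eval (dec (ut t ++ w)).length) &&
    decide (V (pairBits (dec (ut t ++ w)) c) = [true]))))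

theorem poly_vf {V : List Bool → List Bool} (hV : Poly V) (p : Polynomial ℕ) {α : Type} [TEnc α]
    {t w c : α → List Bool} (ht : Poly t) (hw : Poly w) (hc : Poly c) :
    Poly (fun a => vf V p (t a) (w a) (c a)) := by
  have hv : Poly (fun a => ut (t a) ++ w a) := Poly.append (poly_ut ht) hw
  have hd : Poly (fun a => dec (ut (t a) ++ w a)) := poly_dec hv
  unfold vf
  refine Poly.and (Poly.decide_eq ht (poly_tn (upoly_nt ht) (poly_ut ht)))
    (Poly.and (Poly.decide_eq (Poly.length hv)
      (UPoly.toPoly (UPoly.add (UPoly.mul (upoly_nt ht) (upoly_nt ht)) (UPoly.const 1))))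
    (Poly.and (Poly.decide_le (UPoly.toPoly (upoly_nt ht)) (Poly.length hd))
    (Poly.and (Poly.decide_le (Poly.length hc) (UPoly.toPoly (UPoly.eval (UPoly.length hd) p)))
      (Poly.decide_eq (hV.comp (poly_pairBits hd hc)) (NPC.Poly.const _)))))

theorem pairBits_length (x w : List Bool) :
    (pairBits x w).length = 2 * x.length + 1 + w.length := by
  induction x with
  | nil => simp [pairBits]; omega
  | cons b x ih =>
    have h1 : pairBits (b :: x) w = true :: b :: pairBits x w := by simp [pairBits]
    rw [h1, List.length_cons, List.length_cons, ih, List.length_cons]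
    omega

theorem dec_length_le (v : List Bool) : (dec v).length ≤ v.length := by
  unfold dec
  rw [List.length_reverse, List.length_tail]
  have h1 := (List.dropWhile_suffix (l := v.reverse) (fun b : Bool => !b)).length_le
  rw [List.length_reverse] at h1
  omega

theorem taskT : TaskT := by
  intro B hB
  obtain ⟨V, p, hV, hVB⟩ := hB
  have pV := poly_of_polyTime hV
  refine ⟨fun y => [vf V p (unpair y).1 (unpair (unpair y).2).1 (unpair (unpair y).2).2],
    Polynomial.C 2 * (Polynomial.X ^ 2 + 1) + 1 + p.comp (Polynomial.X ^ 2 + 1), ?_, ?_⟩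
  · refine polyTime_of_poly_list (Poly.cons (poly_vf pV p (Poly.fst poly_unpair)
      (Poly.fst (poly_unpair.comp (Poly.snd poly_unpair)))
      (Poly.snd (poly_unpair.comp (Poly.snd poly_unpair)))) (NPC.Poly.const []))
  · intro t
    constructor
    · rintro ⟨n, u, w, rfl, h1, h2, h3⟩
      obtain ⟨c, hc1, hc2⟩ := (hVB _).1 h3
      refine ⟨pairBits w c, ?_, ?_⟩
      · rw [pairBits_length]
        have h4 : w.length ≤ n ^ 2 + 1 := by
          rw [List.length_append] at h1
          omega
        have h5 : n ≤ (tn n u).length := by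
          rw [tn_length]
          omega
        have h6 : n ^ 2 ≤ (tn n u).length ^ 2 := Nat.pow_le_pow_left h5 2
        have h7 : (dec (u ++ w)).length ≤ (tn n u).length ^ 2 + 1 := by
          have := dec_length_le (u ++ w)
          omega
        have h8 := eval_mono p h7
        simp only [Polynomial.eval_add, Polynomial.eval_mul, Polynomial.eval_C,
          Polynomial.eval_pow, Polynomial.eval_X, Polynomial.eval_one, Polynomial.eval_comp]
        omega
      · simp only [unpair_pairBits, vf, nt_tn, ut_tn]
        simp only [List.cons.injEq, and_true, Bool.and_eq_true, decide_eq_true_eq]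
        refine ⟨trivial, ?_, h2, hc1, hc2⟩
        rw [h1, pow_two]
    · rintro ⟨w', -, h⟩
      simp only [unpair_pairBits, vf, List.cons.injEq, and_true, Bool.and_eq_true,
        decide_eq_true_eq] at h
      obtain ⟨h1, h2, h3, h4, h5⟩ := h
      refine ⟨nt t, ut t, (unpair w').1, h1, ?_, h3, (hVB _).2 ⟨(unpair w').2, h4, h5⟩⟩
      rw [h2, pow_two]

end Pool.Agent.H910R3.KS.T
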