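import Pool.Agent.H910R3.KS.Stmts

/-! Programs give machines. -/

set_option autoImplicit false

namespace Pool.Agent.H910R3.KS.TM

open Pool.Agent.NPC Turing Pool.Agent.H910R3.KS

lemma inp_restrict (n : ℕ) (z : List Bool) :
    (fun i : Fin (n + 1) => (inp z : ℕ → List Bool) (i : ℕ)) = inp z := by
  funext i
  by_cases hi : i = 0
  · subst hi; simp [inp]
  · have h : (i : ℕ) ≠ 0 := fun h => hi (Fin.ext h)
    simp [inp, hi, h]

theorem taskTM : TaskTM := by
  intro c
  refine ⟨{ tm := (c.map (Fin.ofNat (c.bd + 1))).toTM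
            inputAlphabet := Equiv.refl Bool
            outputAlphabet := Equiv.refl Bool }, ?_⟩
  rintro x y t ⟨t', ht, hr⟩
  have h1 := hr.restrict (n := c.bd) (by omega)
  rw [inp_restrict, inp_restrict] at h1
  obtain ⟨h2⟩ := toTM_outputs h1
  exact ⟨outputs_conv (List.map_id x).symm (List.map_id y).symm (by omega) h2⟩

end Pool.Agent.H910R3.KS.TM
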