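import Pool.Agent.H910R3.KS.Main
import Pool.Agent.H910R3.KS.TM
import Pool.Agent.H910R3.KS.Expand
import Pool.Agent.H910R3.KS.Pad
import Pool.Agent.H910R3.KS.NPSat
import Pool.Agent.H910R3.KS.B
import Pool.Agent.H910R3.KS.T
import Pool.Agent.H910R3.KS.FindA
import Pool.Agent.H910R3.KS.FindB
import Pool.Agent.H910R3.KS.Finite2
import Pool.Agent.H910R3.KS.Grow

/-!
# Kolmogorov-simple satisfiable formulas: the final theorem
-/

set_option autoImplicit false

namespace Pool.Agent.H910R3.KS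

open Pool.Agent.NPC Turing

theorem final (U : TM2ComputableAux Bool Bool) (hU : Universal U) (g G : ℕ → ℕ)
    (hg : ∃ a n₀ : ℕ, ∀ n ≥ n₀, Nat.log 2 n ≤ a * g n)
    (hG : ∀ c : ℕ, ∃ n₀ : ℕ, ∀ n ≥ n₀, n ^ c < G n) :
    (∃ S : Set (List Bool), InP S ∧ KC U g G ∩ lang SAT ⊆ S ∧ S ⊆ lang SAT) ↔
      ∀ L : Set (List Bool), InNP L → InP L := by
  constructor
  · rintro ⟨S, hS, h1, h2⟩
    exact main TM.taskTM Expand.taskExpand Pad.taskPad (B.taskB NPSat.taskNPSat) T.taskT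
      FindA.taskFindA FindB.taskFindB Finite2.taskFinite Grow.taskGrow U hU g G hg hG S hS h1 h2
  · intro h
    exact ⟨lang SAT, h _ NPSat.taskNPSat, Set.inter_subset_right, subset_rfl⟩

theorem super_log (c : ℕ) : ∃ n₀ : ℕ, ∀ n ≥ n₀, n ^ c < n ^ Nat.clog 2 n := by
  refine ⟨2 ^ (c + 1), fun n hn => ?_⟩
  have h2 : 1 < n := by
    have : 1 < 2 ^ (c + 1) := Nat.one_lt_two_pow (by omega)
    omega
  have h3 : c + 1 ≤ Nat.clog 2 n := by
    have h4 : c + 1 ≤ Nat.log 2 n := (Nat.le_log_iff_pow_le (by norm_num) (by omega)).2 hn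
    exact h4.trans (Nat.log_le_clog 2 n)
  exact Nat.pow_lt_pow_right h2 (by omega)

theorem final_log (U : TM2ComputableAux Bool Bool) (hU : Universal U) :
    (∃ S : Set (List Bool), InP S ∧
      KC U (fun n => Nat.clog 2 n) (fun n => n ^ Nat.clog 2 n) ∩ lang SAT ⊆ S ∧ S ⊆ lang SAT) ↔
      ∀ L : Set (List Bool), InNP L → InP L :=
  final U hU _ _ ⟨1, 0, fun n _ => by rw [one_mul]; exact Nat.log_le_clog 2 n⟩ super_log

end Pool.Agent.H910R3.KS
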