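import Pool.Agent.H910R3.KS.Stmts

/-!
# A set in `P` that differs from `SAT` at finitely many strings
-/

set_option autoImplicit false

namespace Pool.Agent.H910R3.KS.Finite

open Pool.Agent.NPC Turing

theorem inP_insert {S : Set (List Bool)} (hS : InP S) (u : List Bool) : InP (insert u S) := by
  obtain ⟨V, hV, hV'⟩ := hS
  have h1 : PC (fun x : List Bool => x) (fun x : List Bool => x) V :=
    H642R2.TMSim.polyTime_toPC hV
  have h2 : PC (fun x : List Bool => x) T.enc (fun x : List Bool => toT (decide (x = u))) := by
    have h0 : Pool.Agent.NPC.Poly (fun x : List Bool => decide (x = u)) :=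
      Pool.Agent.NPC.Poly.decide_eq (β := List Bool) (f := fun x => x) (g := fun _ => u)
        Pool.Agent.NPC.Poly.id (Pool.Agent.NPC.Poly.const u)
    obtain ⟨c, p, h⟩ := PC.comp (g := fun x : List Bool => decide (x = u)) (f := fun x => x)
      h0 PC.rawIn
    exact ⟨c, p, h⟩
  have h3 : PC (fun x : List Bool => x) (fun x : List Bool => x)
      (fun x => if toT (decide (x = u)) = T.nil then V x else [true]) :=
    PC.ite (g := V) (h := fun _ => [true]) h2 h1 (PC.const [true])
  refine ⟨_, PC.toPolyTime h3, fun x => ?_⟩
  change x ∈ insert u S ↔ (if toT (decide (x = u)) = T.nil then V x else [true]) = [true]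
  by_cases hx : x = u
  · subst hx
    have : toT (decide (x = x)) ≠ T.nil := by
      simp only [decide_true]
      intro h
      cases h
    rw [if_neg this]
    simp
  · have : toT (decide (x = u)) = T.nil := by
      rw [decide_eq_false hx]; rfl
    rw [if_pos this, Set.mem_insert_iff]
    constructor
    · rintro (h | h)
      · exact absurd h hx
      · exact (hV' x).1 h
    · intro h
      exact Or.inr ((hV' x).2 h)

theorem inP_union_finite {S : Set (List Bool)} (hS : InP S) {F : Set (List Bool)}
    (hF : F.Finite) : InP (F ∪ S) := by
  induction F, hF using Set.Finite.induction_on with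
  | empty => simpa using hS
  | @insert a s _ _ ih =>
    rw [Set.insert_union]
    exact inP_insert ih a

theorem taskFinite : TaskFinite := by
  intro S n hS hsub hlong L hL
  have hfin : {x : List Bool | x ∈ lang SAT ∧ x.length < n}.Finite :=
    (List.finite_length_lt Bool n).subset fun x hx => hx.2
  have h1 := inP_union_finite hS hfin
  have h2 : {x : List Bool | x ∈ lang SAT ∧ x.length < n} ∪ S = lang SAT := by
    ext x
    constructor
    · rintro (h | h)
      · exact h.1
      · exact hsub h
    · intro h
      by_cases hx : x.length < n
      · exact Or.inl ⟨h, hx⟩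
      · exact Or.inr (hlong x h (by omega))
  rw [h2] at h1
  exact NPHard.collapse npHard_SAT h1 L hL

end Pool.Agent.H910R3.KS.Finite
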