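import Pool.Agent.H910R3.KS.Stmts

/-!
# Kolmogorov-simple satisfiable formulas: the main proof
-/

set_option autoImplicit false

namespace Pool.Agent.H910R3.KS

open Pool.Agent.NPC Turing

theorem Outputs.mono {M : TM2ComputableAux Bool Bool} {x y : List Bool} {t t' : ℕ}
    (h : Outputs M x y t) (ht : t ≤ t') : Outputs M x y t' := by
  obtain ⟨h⟩ := h
  exact ⟨⟨h.toEvalsTo, h.steps_le_m.trans ht⟩⟩

theorem length_tn (n : ℕ) (u : List Bool) : (tn n u).length = n + 1 + u.length := by
  simp [tn]; omega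

theorem tn_inj {n m : ℕ} {u v : List Bool} (h : tn n u = tn m v) : n = m ∧ u = v := by
  induction n generalizing m with
  | zero =>
    cases m with
    | zero => simpa [tn] using h
    | succ m => simp [tn, List.replicate_succ] at h
  | succ n ih =>
    cases m with
    | zero => simp [tn, List.replicate_succ] at h
    | succ m =>
      have h1 : tn n u = tn m v := by
        simpa [tn, List.replicate_succ] using h
      obtain ⟨h2, h3⟩ := ih h1
      exact ⟨by omega, h3⟩

/-- Universal machines compute `h (tn (nn r) y)` from a short input. -/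
theorem gen (hTM : TaskTM) (hE : TaskExpand) (U : TM2ComputableAux Bool Bool) (hU : Universal U)
    (h : List Bool → List Bool) (hh : PolyTime h) :
    ∃ (π : List Bool) (p : Polynomial ℕ), ∀ (r : ℕ) (y : List Bool),
      Outputs U (π ++ tn r y) (h (tn (nn r) y)) (p.eval (nn r + y.length)) := by
  obtain ⟨c1, p1, h1⟩ := hE
  obtain ⟨c2, p2, h2⟩ := H642R2.TMSim.polyTime_toPC hh
  obtain ⟨M, hM⟩ := hTM (Cmd.seq c1 c2)
  obtain ⟨π, p, hπ⟩ := hU M
  refine ⟨π, p.comp (Polynomial.X + 1 + (p1 + p2.comp (Polynomial.X + 1) + 1)), fun r y => ?_⟩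
  have h3 : Runs (Cmd.seq c1 c2) (inp (tn r y)) (inp (h (tn (nn r) y)))
      (p1.eval (nn r + y.length) + p2.eval (tn (nn r) y).length) :=
    Runs.seq (h1 r y) (h2 _)
  have h4 := hπ _ _ _ (hM _ _ _ h3)
  refine h4.mono ?_
  have h5 : r ≤ nn r := by
    have a1 : r < 2 ^ r := Nat.lt_two_pow_self
    have a2 : 2 ^ r < 2 ^ 2 ^ r := Nat.lt_two_pow_self
    unfold nn
    omega
  simp only [Polynomial.eval_comp, Polynomial.eval_add, Polynomial.eval_X, Polynomial.eval_one]
  refine eval_mono p ?_
  rw [length_tn, length_tn]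
  have h6 : nn r + 1 + y.length = nn r + y.length + 1 := by omega
  rw [h6]
  omega

/-- the prefix search is correct -/
theorem search (B : Set (List Bool)) (s : List Bool → Bool) (n : ℕ)
    (hs : ∀ j ≤ n ^ 2, (s (tn n (pre s n j ++ [false])) = true ↔
      tn n (pre s n j ++ [false]) ∈ TB B))
    (hx : ∃ x ∈ B, n ≤ x.length ∧ x.length ≤ n ^ 2) :
    dec (pre s n (n ^ 2 + 1)) ∈ B ∧ n ≤ (dec (pre s n (n ^ 2 + 1))).length := by
  have hlen : ∀ j, (pre s n j).length = j := by
    intro j
    induction j with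
    | zero => rfl
    | succ j ih => simp [pre, ih]
  have key : ∀ j ≤ n ^ 2 + 1, ∃ w : List Bool, (pre s n j ++ w).length = n ^ 2 + 1 ∧
      n ≤ (dec (pre s n j ++ w)).length ∧ dec (pre s n j ++ w) ∈ B := by
    intro j
    induction j with
    | zero =>
      intro _
      obtain ⟨x, hxB, h1, h2⟩ := hx
      have hd : dec (x ++ true :: List.replicate (n ^ 2 - x.length) false) = x := by
        unfold dec
        rw [List.reverse_append, List.reverse_cons, List.reverse_replicate, List.append_assoc]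
        have : ∀ k, List.dropWhile (fun b => !b)
            (List.replicate k false ++ ([true] ++ x.reverse)) = true :: x.reverse := by
          intro k
          induction k with
          | zero => rfl
          | succ k ih => rw [List.replicate_succ, List.cons_append, List.dropWhile_cons]; simp [ih]
        rw [this]
        simp
      refine ⟨x ++ true :: List.replicate (n ^ 2 - x.length) false, ?_, ?_, ?_⟩
      · simp [pre]; omega
      · rw [pre, List.nil_append, hd]; exact h1
      · rw [pre, List.nil_append, hd]; exact hxB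
    | succ j ih =>
      intro hj
      obtain ⟨w, hw1, hw2, hw3⟩ := ih (by omega)
      have hsj := hs j (by omega)
      cases hb : s (tn n (pre s n j ++ [false])) with
      | true =>
        obtain ⟨n', u, w', he, h1, h2, h3⟩ := hsj.1 hb
        obtain ⟨rfl, rfl⟩ := tn_inj he
        exact ⟨w', by rw [pre, hb]; exact h1, by rw [pre, hb]; exact h2, by rw [pre, hb]; exact h3⟩
      | false =>
        have hlw : (pre s n j).length + w.length = n ^ 2 + 1 := by
          rw [← List.length_append]; exact hw1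
        rw [hlen] at hlw
        match w, hlw with
        | [], hlw => simp at hlw; omega
        | b :: w, _ =>
          have hbt : b = true := by
            by_contra hbf
            have hbf' : b = false := by simpa using hbf
            subst hbf'
            have : s (tn n (pre s n j ++ [false])) = true := hsj.2
              ⟨n, _, w, rfl, by simpa using hw1, by simpa using hw2, by simpa using hw3⟩
            rw [hb] at this
            exact absurd this (by simp)
          subst hbt
          refine ⟨w, ?_, ?_, ?_⟩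
          · rw [pre, hb]; simpa using hw1
          · rw [pre, hb]; simpa using hw2
          · rw [pre, hb]; simpa using hw3
  obtain ⟨w, hw1, hw2, hw3⟩ := key (n ^ 2 + 1) le_rfl
  have hw : w = [] := by
    have := hlen (n ^ 2 + 1)
    rw [List.length_append, this] at hw1
    exact List.length_eq_zero_iff.1 (by omega)
  subst hw
  rw [List.append_nil] at hw2 hw3
  exact ⟨hw3, hw2⟩

theorem nn_succ (r : ℕ) : nn (r + 1) = nn r ^ 2 := by
  unfold nn
  rw [← pow_mul, pow_succ]

theorem nn_cover (R : ℕ) (l : ℕ) (hl : nn R ≤ l) : ∃ r ≥ R, nn r ≤ l ∧ l ≤ nn r ^ 2 := by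
  by_contra hcon
  push Not at hcon
  have : ∀ k, nn (R + k) ≤ l := by
    intro k
    induction k with
    | zero => exact hl
    | succ k ih =>
      have := hcon (R + k) (by omega) ih
      rw [← Nat.add_assoc, nn_succ]
      omega
  have h1 := this l
  have a1 : R + l < 2 ^ (R + l) := Nat.lt_two_pow_self
  have a2 : 2 ^ (R + l) < 2 ^ 2 ^ (R + l) := Nat.lt_two_pow_self
  unfold nn at h1
  omega

theorem log_nn (r : ℕ) (A N : ℕ) (h : nn r ^ A ≤ N) : A * 2 ^ r ≤ Nat.log 2 N := by
  have h1 : 2 ^ (A * 2 ^ r) ≤ N := by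
    rw [mul_comm, pow_mul]
    exact h
  have hN : N ≠ 0 := by
    have : 0 < 2 ^ (A * 2 ^ r) := by positivity
    omega
  exact (Nat.le_log_iff_pow_le (by norm_num) hN).2 h1

/-- eventually `c + r ≤ 2 ^ r` -/
theorem ev_lin (a c : ℕ) : ∃ r₀, ∀ r ≥ r₀, a * (c + r) ≤ 2 ^ r := by
  have h3 : ∀ m ≥ 4, 3 * m ≤ 2 ^ m := by
    intro m hm
    induction m, hm using Nat.le_induction with
    | base => norm_num
    | succ m hm ih => rw [pow_succ]; omega
  refine ⟨2 * (a + c + 4), fun r hr => ?_⟩
  induction r, hr using Nat.le_induction with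
  | base =>
    have h1 := h3 (a + c + 4) (by omega)
    have h2 : a ≤ 2 ^ (a + c + 4) := by omega
    have h4 : c + 2 * (a + c + 4) ≤ 2 ^ (a + c + 4) := by omega
    calc a * (c + 2 * (a + c + 4)) ≤ 2 ^ (a + c + 4) * 2 ^ (a + c + 4) := Nat.mul_le_mul h2 h4
      _ = 2 ^ (2 * (a + c + 4)) := by rw [two_mul]; exact (pow_add 2 _ _).symm
  | succ r hr ih =>
    have h1 : r < 2 ^ r := Nat.lt_two_pow_self
    have h2 : a * (c + (r + 1)) = a * (c + r) + a := by ring
    rw [pow_succ]
    omega

/-- The main theorem. -/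
theorem main (hTM : TaskTM) (hE : TaskExpand) (hPad : TaskPad) (hB : TaskB) (hT : TaskT)
    (hA : TaskFindA) (hFB : TaskFindB) (hF : TaskFinite) (hGr : TaskGrow)
    (U : TM2ComputableAux Bool Bool) (hU : Universal U) (g G : ℕ → ℕ)
    (hg : ∃ a n₀ : ℕ, ∀ n ≥ n₀, Nat.log 2 n ≤ a * g n)
    (hG : ∀ c : ℕ, ∃ n₀ : ℕ, ∀ n ≥ n₀, n ^ c < G n)
    (S : Set (List Bool)) (hS : InP S) (hKS : KC U g G ∩ lang SAT ⊆ S) (hSS : S ⊆ lang SAT) :
    ∀ L : Set (List Bool), InNP L → InP L := by
  obtain ⟨a, n₀, hg⟩ := hg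
  obtain ⟨Sd, hSd, hSd2⟩ := id hS
  have hTN : InNP (TB (lang SAT ∩ Sᶜ)) := hT _ (hB S hS)
  obtain ⟨f, hf, hf2, hf3⟩ := hPad _ hTN (4 * a + 1)
  obtain ⟨h1, hh1, hh1'⟩ := hA Sd f hSd hf
  obtain ⟨h2, hh2, hh2'⟩ := hFB Sd f hSd hf
  obtain ⟨π1, p1, hπ1⟩ := gen hTM hE U hU h1 hh1
  obtain ⟨π2, p2, hπ2⟩ := gen hTM hE U hU h2 hh2
  obtain ⟨r1, hr1⟩ := hGr G hG p1
  obtain ⟨r2, hr2⟩ := hGr G hG p2
  obtain ⟨r3, hr3⟩ := ev_lin 1 (π1.length + 4)
  obtain ⟨r4, hr4⟩ := ev_lin a (π2.length + 1)
  have hbig : ∀ r ≥ n₀, n₀ ≤ nn r := by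
    intro r hr
    have a1 : r < 2 ^ r := Nat.lt_two_pow_self
    have a2 : 2 ^ r < 2 ^ 2 ^ r := Nat.lt_two_pow_self
    unfold nn
    omega
  set R := r1 + r2 + r3 + r4 + n₀ + 2 with hR
  refine hF S (nn R) hS hSS fun x hx hxl => ?_
  by_contra hxS
  obtain ⟨r, hrR, hxr, hxr2⟩ := nn_cover R x.length hxl
  have hnpos : 2 ≤ nn r := by
    unfold nn
    have : 1 ≤ 2 ^ r := Nat.one_le_two_pow
    calc 2 = 2 ^ 1 := rfl
      _ ≤ 2 ^ 2 ^ r := Nat.pow_le_pow_right (by norm_num) this
  have h2r : 2 ^ r ≤ nn r := by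
    unfold nn
    exact Nat.lt_two_pow_self.le
  -- the answers are correct
  have hs : ∀ j ≤ (nn r) ^ 2, (st Sd f (tn (nn r) (pre (st Sd f) (nn r) j ++ [false])) = true ↔
      tn (nn r) (pre (st Sd f) (nn r) j ++ [false]) ∈ TB (lang SAT ∩ Sᶜ)) := by
    intro j hj
    set t := tn (nn r) (pre (st Sd f) (nn r) j ++ [false]) with ht
    have hst : st Sd f t = true ↔ f t ∈ S := by
      unfold st
      rw [decide_eq_true_iff, hSd2]
    rw [hst, hf2]
    refine ⟨fun h => hSS h, fun h => hKS ⟨?_, h⟩⟩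
    have hzl : nn r ^ (4 * a + 1) ≤ (f t).length := by
      refine le_trans (Nat.pow_le_pow_left ?_ _) (hf3 t)
      rw [ht, length_tn]
      omega
    have hzl1 : nn r ≤ (f t).length := by
      refine le_trans ?_ hzl
      exact Nat.le_self_pow (by omega) _
    have hlog := log_nn r _ _ hzl
    have hgz := hg (f t).length ((hbig r (by omega)).trans hzl1)
    have hbits : (Nat.bits j).length ≤ 2 * 2 ^ r + 1 := by
      rw [Nat.size_eq_bits_len, Nat.size_le]
      refine lt_of_le_of_lt hj ?_
      have : nn r ^ 2 = 2 ^ (2 * 2 ^ r) := by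
        unfold nn
        rw [← pow_mul, mul_comm]
      rw [this]
      exact Nat.pow_lt_pow_right (by norm_num) (by omega)
    refine ⟨π1 ++ tn r (Nat.bits j), ?_, p1.eval (nn r + (Nat.bits j).length), ?_, ?_⟩
    · rw [List.length_append, length_tn]
      have hr3' := hr3 r (by omega)
      -- a * g ≥ (4a+1) 2^r, hence g ≥ 4 * 2^r
      have h4 : 4 * 2 ^ r ≤ g (f t).length := by
        by_contra hc
        push Not at hc
        have h5 : a * g (f t).length ≤ a * (4 * 2 ^ r) := Nat.mul_le_mul_left _ hc.le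
        have h6 : (4 * a + 1) * 2 ^ r ≤ a * (4 * 2 ^ r) := hlog.trans (hgz.trans h5)
        have h7 : 0 < 2 ^ r := by positivity
        nlinarith
      omega
    · refine lt_of_le_of_lt (eval_mono p1 ?_) (hr1 r (by omega) _ hzl1)
      omega
    · have := hπ1 r (Nat.bits j)
      rw [hh1' _ _ hj] at this
      exact this
  have hfin := search (lang SAT ∩ Sᶜ) (st Sd f) (nn r) hs ⟨x, ⟨hx, hxS⟩, hxr, hxr2⟩
  set z := dec (pre (st Sd f) (nn r) ((nn r) ^ 2 + 1)) with hz
  refine hfin.1.2 (hKS ⟨⟨π2 ++ tn r [], ?_, p2.eval (nn r + 0), ?_, ?_⟩, hfin.1.1⟩)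
  · rw [List.length_append, length_tn, List.length_nil]
    have hlog := log_nn r 1 z.length (by simpa using hfin.2)
    have hgz := hg z.length ((hbig r (by omega)).trans hfin.2)
    have hr4' := hr4 r (by omega)
    by_contra hc
    push Not at hc
    have ha : 0 < a := by
      rcases Nat.eq_zero_or_pos a with h0 | h0
      · rw [h0, zero_mul] at hgz
        have h7 : 0 < 2 ^ r := by positivity
        omega
      · exact h0
    have h5 : a * g z.length < a * (π2.length + (r + 1 + 0)) := Nat.mul_lt_mul_of_pos_left hc ha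
    have h6 : a * (π2.length + 1 + r) = a * (π2.length + (r + 1 + 0)) := by ring
    omega
  · refine lt_of_le_of_lt (eval_mono p2 ?_) (hr2 r (by omega) _ hfin.2)
    omega
  · have := hπ2 r []
    rw [hh2'] at this
    exact this

end Pool.Agent.H910R3.KS
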