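import Pool.Agent.H910R3.KS.Defs
import Pool.Agent.NPC.Classes
import Pool.Agent.NPC.Dec
import Pool.Agent.NPC.Sat
import Pool.Agent.H642R2.TMSim

/-!
# Kolmogorov-simple satisfiable formulas: definitions and tasks
-/

set_option autoImplicit false

namespace Pool.Agent.H910R3.KS

open Pool.Agent.NPC Turing

/-- `n` in unary and a string -/
def tn (n : ℕ) (u : List Bool) : List Bool := List.replicate n true ++ false :: u

/-- the lengths that are used -/
def nn (r : ℕ) : ℕ := 2 ^ 2 ^ r

/-- `dec (x ++ true :: 00..0) = x` -/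
def dec (v : List Bool) : List Bool := ((v.reverse.dropWhile (fun b => !b)).tail).reverse

/-- The pairs (`n` in unary, `u`) such that `u` can be extended to a string of length `n² + 1` that
encodes an element of `B` of length at least `n`. -/
def TB (B : Set (List Bool)) : Set (List Bool) :=
  {t | ∃ (n : ℕ) (u w : List Bool), t = tn n u ∧ (u ++ w).length = n ^ 2 + 1 ∧
    n ≤ (dec (u ++ w)).length ∧ dec (u ++ w) ∈ B}

/-- the first `j` bits found by the prefix search with the answers `s` -/
def pre (s : List Bool → Bool) (n : ℕ) : ℕ → List Bool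
  | 0 => []
  | j + 1 => pre s n j ++ [!(s (tn n (pre s n j ++ [false])))]

/-- the test `S` applied to `f t` -/
def st (Sd f : List Bool → List Bool) (t : List Bool) : Bool := decide (Sd (f t) = [true])

/-- Programs give machines. -/
def TaskTM : Prop := ∀ c : Cmd ℕ, ∃ M : TM2ComputableAux Bool Bool, ∀ (x y : List Bool) (t : ℕ),
  Runs c (inp x) (inp y) t → Outputs M x y (t + 1)

/-- The program that computes `nn r` from `r`, in unary. -/
def TaskExpand : Prop := ∃ (c : Cmd ℕ) (p : Polynomial ℕ), ∀ (r : ℕ) (y : List Bool),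
  Runs c (inp (tn r y)) (inp (tn (nn r) y)) (p.eval (nn r + y.length))

/-- The reduction to `SAT`, with padding. -/
def TaskPad : Prop := ∀ T : Set (List Bool), InNP T → ∀ a : ℕ, ∃ f : List Bool → List Bool,
  PolyTime f ∧ (∀ t, t ∈ T ↔ f t ∈ lang SAT) ∧ ∀ t, t.length ^ a ≤ (f t).length

/-- `SAT` minus a set in `P` is in `NP`. -/
def TaskB : Prop := ∀ S : Set (List Bool), InP S → InNP (lang SAT ∩ Sᶜ)

/-- The search problem is in `NP`. -/
def TaskT : Prop := ∀ B : Set (List Bool), InNP B → InNP (TB B)

/-- The next question of the prefix search can be computed in polynomial time. -/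
def TaskFindA : Prop := ∀ Sd f : List Bool → List Bool, PolyTime Sd → PolyTime f →
  ∃ h : List Bool → List Bool, PolyTime h ∧ ∀ n j : ℕ, j ≤ n ^ 2 →
    h (tn n (Nat.bits j)) = f (tn n (pre (st Sd f) n j ++ [false]))

/-- The result of the prefix search can be computed in polynomial time. -/
def TaskFindB : Prop := ∀ Sd f : List Bool → List Bool, PolyTime Sd → PolyTime f →
  ∃ h : List Bool → List Bool, PolyTime h ∧ ∀ n : ℕ,
    h (tn n []) = dec (pre (st Sd f) n (n ^ 2 + 1))

/-- If a set in `P` differs from `SAT` at finitely many strings, then `P = NP`. -/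
def TaskFinite : Prop := ∀ (S : Set (List Bool)) (n : ℕ), InP S → S ⊆ lang SAT →
  (∀ x ∈ lang SAT, n ≤ x.length → x ∈ S) → ∀ L : Set (List Bool), InNP L → InP L

/-- `SAT` is in `NP`. -/
def TaskNPSat : Prop := InNP (lang SAT)

/-- a polynomial is smaller than a superpolynomial function -/
def TaskGrow : Prop := ∀ (G : ℕ → ℕ), (∀ c : ℕ, ∃ n₀ : ℕ, ∀ n ≥ n₀, n ^ c < G n) →
  ∀ (p : Polynomial ℕ), ∃ r₀ : ℕ, ∀ r ≥ r₀, ∀ N ≥ nn r, p.eval (4 * nn r) < G N

end Pool.Agent.H910R3.KS
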